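import Pool.Agent.H57.AR.Targets
import Pool.Agent.H48.SO.JEX
import Pool.Agent.H3.SO.VIE

/-!
# Row JEXR: existence of the set of the determining positions
-/

set_option autoImplicit false

namespace Pool.Agent.H3.AR

open Pool.Agent.H57.AR
open Pool.Agent.H68.BP Pool.Agent.H58.SF Pool.Agent.H53.GC Pool.Agent.H53.NR Pool.Agent.H53.GR
open Pool.Agent.H57.SO (Pal Col vt Exa Sb FBl Sbn Bh fib sigF Same Uni Can Stp)
open Pool.Agent.H44.SO (ZS JS Loc OfT LInj sig0 str0 B2)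
open Pool.Agent.H57.EQ (Cx)
open Function

section

variable {V S X : Type} [LinearOrder V] {P : Pal S X} {c : V → V → S ⊕ X} {s : S}
  {κ : Fin 6 → ℕ} {z z' : Fin 6 → V}

/-- the position of an entry of a pair of blocks -/
def pos6 : Fin 6 ⊕ Fin 6 → Fin 6 := Sum.elim id id

theorem zs_typ (hz : ZS P c s κ z z') (a : Fin 6 ⊕ Fin 6) :
    c (Sum.elim z z' a) (Sum.elim z z' a) = Sum.inl s := by
  rcases a with a | a
  · exact (hz.typ a).1
  · exact (hz.typ a).2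

theorem zs_lt (hz : ZS P c s κ z z') (a b : Fin 6 ⊕ Fin 6) (h : κ (pos6 a) < κ (pos6 b)) :
    Sum.elim z z' a < Sum.elim z z' b := by
  rcases a with a | a <;> rcases b with b | b
  · exact (hz.lt a b h).1
  · exact (hz.lt a b h).2.1
  · exact (hz.lt a b h).2.2.1
  · exact (hz.lt a b h).2.2.2

theorem zs_free (hz : ZS P c s κ z z') (a b : Fin 6 ⊕ Fin 6) (h : κ (pos6 a) < κ (pos6 b)) :
    c (Sum.elim z z' a) (Sum.elim z z' b) = Sum.inr (P.fr s s) := by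
  rcases a with a | a <;> rcases b with b | b
  · exact (hz.free a b h).1
  · exact (hz.free a b h).2.1
  · exact (hz.free a b h).2.2.1
  · exact (hz.free a b h).2.2.2

theorem zs_fre (hc : Col P c) (hz : ZS P c s κ z z') (a b : Fin 6 ⊕ Fin 6)
    (h : κ (pos6 a) ≠ κ (pos6 b)) : Fre P c (Sum.elim z z' a) (Sum.elim z z' b) := by
  have h1 : vt P c (Sum.elim z z' a) = s := Pool.Agent.H44.SO.vt_of (zs_typ hz a)
  have h2 : vt P c (Sum.elim z z' b) = s := Pool.Agent.H44.SO.vt_of (zs_typ hz b)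
  unfold Fre
  rw [h1, h2]
  rcases lt_or_gt_of_ne h with h3 | h3
  · exact zs_free hz a b h3
  · have h4 := hc.swap _ _ _ (zs_free hz b a h3)
    rw [P.rv_fr] at h4
    exact h4

theorem zs_same (hz : ZS P c s κ z z') (a b d : Fin 6 ⊕ Fin 6) (h : κ (pos6 a) = κ (pos6 b))
    (h' : κ (pos6 b) = κ (pos6 d)) : Sum.elim z z' a = Sum.elim z z' b ∨
      Sum.elim z z' b = Sum.elim z z' d ∨ Sum.elim z z' a = Sum.elim z z' d := by
  rcases a with a | a <;> rcases b with b | b <;> rcases d with d | d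
  · exact Or.inl (hz.eq a b h).1
  · exact Or.inl (hz.eq a b h).1
  · exact Or.inr (Or.inr (hz.eq a d (h.trans h')).1)
  · exact Or.inr (Or.inl (hz.eq b d h').2)
  · exact Or.inr (Or.inl (hz.eq b d h').1)
  · exact Or.inr (Or.inr (hz.eq a d (h.trans h')).2)
  · exact Or.inl (hz.eq a b h).2
  · exact Or.inl (hz.eq a b h).2

theorem zs_notri (hc : Col P c) (hz : ZS P c s κ z z') : NoTri P c (Sum.elim z z') := by
  intro a b d hab hbd had
  by_cases h1 : κ (pos6 a) = κ (pos6 b)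
  · by_cases h2 : κ (pos6 b) = κ (pos6 d)
    · rcases zs_same hz a b d h1 h2 with h3 | h3 | h3
      · exact absurd h3 hab
      · exact absurd h3 hbd
      · exact absurd h3 had
    · exact Or.inr (Or.inl (zs_fre hc hz b d h2))
  · exact Or.inl (zs_fre hc hz a b h1)

end

/-- **Row JEXR.** -/
theorem pf_JEXR (hSHV : T_SHV) (hSHB : T_SHB) : T_JEXR := by
  intro σ ρ V S X _ P 𝔸 𝔹 M c hS h hh s κ
  have hc := hS.lnk.col
  obtain ⟨V₀, iV, c₀, hD⟩ := hSHV σ ρ V S X P 𝔸 𝔹 M c hS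
  obtain ⟨H₀, hH₀, hSp⟩ := hSHB σ ρ V S X P 𝔸 𝔹 M c hS V₀ c₀ hD (Fin 6) h hh
  have hc₀ := hD.stp.col
  obtain ⟨J, hJ1, hJ2⟩ := Pool.Agent.H48.SO.JEX.pf_JEX Pool.Agent.H3.SO.VIE.pf_VIE
    _ V₀ S X P (str0 V₀) M c₀ hD.stp H₀ hH₀ s κ
  refine ⟨J, hJ1, ?_⟩
  intro z z' hz hT
  obtain ⟨x, hx⟩ := hD.down (Fin 6 ⊕ Fin 6) (Sum.elim z z') (zs_notri hc hz)
  have hx2 : Sum.elim (fun l => x (Sum.inl l)) (fun l => x (Sum.inr l)) = x := by
    funext a
    rcases a with a | a <;> rfl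
  have hLik : LikP 𝔹 c c₀ z z' (fun l => x (Sum.inl l)) (fun l => x (Sum.inr l)) := by
    refine ⟨hT, fun i j => ?_⟩
    rw [hx2]
    exact hx i j
  have hEq : ∀ a b, x a = x b ↔ Sum.elim z z' a = Sum.elim z z' b := by
    intro a b
    rw [← hc₀.eq_iff, ← hc.eq_iff, (hx a b).2]
  have hZ : ZS P c₀ s κ (fun l => x (Sum.inl l)) (fun l => x (Sum.inr l)) := by
    refine ⟨fun l => ⟨?_, ?_⟩, fun l l' hl => ⟨?_, ?_⟩, fun l l' hl => ⟨?_, ?_, ?_, ?_⟩,
      fun l l' hl => ⟨?_, ?_, ?_, ?_⟩⟩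
    · exact (hx _ _).2.trans (zs_typ hz (Sum.inl l))
    · exact (hx _ _).2.trans (zs_typ hz (Sum.inr l))
    · exact (hEq _ _).2 (hz.eq l l' hl).1
    · exact (hEq _ _).2 (hz.eq l l' hl).2
    · exact (hx _ _).1.2 (zs_lt hz (Sum.inl l) (Sum.inl l') hl)
    · exact (hx _ _).1.2 (zs_lt hz (Sum.inl l) (Sum.inr l') hl)
    · exact (hx _ _).1.2 (zs_lt hz (Sum.inr l) (Sum.inl l') hl)
    · exact (hx _ _).1.2 (zs_lt hz (Sum.inr l) (Sum.inr l') hl)
    · exact (hx _ _).2.trans (zs_free hz (Sum.inl l) (Sum.inl l') hl)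
    · exact (hx _ _).2.trans (zs_free hz (Sum.inl l) (Sum.inr l') hl)
    · exact (hx _ _).2.trans (zs_free hz (Sum.inr l) (Sum.inl l') hl)
    · exact (hx _ _).2.trans (zs_free hz (Sum.inr l) (Sum.inr l') hl)
  have h1 := hJ2 _ _ hZ
  have h2 := hSp z z' _ _ hLik
  have h3 : (∃ s', H₀ (fun l => x (Sum.inl l)) (fun l => x (Sum.inr l)) = Sum.inl s') ↔
      ∃ s', h z z' = Sum.inl s' := by
    rw [h2]
    unfold shv
    by_cases h4 : ∃ s', h z z' = Sum.inl s'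
    · rw [if_pos h4]
    · rw [if_neg h4]
      constructor
      · rintro ⟨s', h5⟩
        exact absurd h5 (by simp)
      · intro h5
        exact absurd h5 h4
  rw [← h3, h1]
  constructor
  · intro h4 l hl
    exact (hEq (Sum.inl l) (Sum.inr l)).1 (h4 l hl)
  · intro h4 l hl
    exact (hEq (Sum.inl l) (Sum.inr l)).2 (h4 l hl)

end Pool.Agent.H3.AR
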