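import Pool.Agent.H57.AR.Targets
import Pool.Agent.H44.SO.Basic

/-!
# Row KERR: the kernel of maps with a given action on the types
-/

set_option autoImplicit false

namespace Pool.Agent.H3.AR

open Pool.Agent.H57.AR
open Pool.Agent.H68.BP Pool.Agent.H58.SF Pool.Agent.H53.GC Pool.Agent.H53.NR Pool.Agent.H53.GR
open Pool.Agent.H57.SO (Pal Col vt Exa Sb FBl Sbn Bh fib sigF Same Uni Can Stp)
open Pool.Agent.H57.EQ (Cx)
open Function

/-- the same type gives the same type of subtuples -/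
theorem sameTp_comp {V W Z : Type} {ρ : Sig} [LinearOrder V] {𝔹 : Str ρ V} {x y : W → V}
    (h : SameTp 𝔹 x y) (g : Z → W) : SameTp 𝔹 (fun a => x (g a)) (fun a => y (g a)) := by
  refine ⟨fun i j => h.1 (g i) (g j), ?_⟩
  funext l z
  exact congrFun (congrFun h.2 l) (fun i => g (z i))

theorem sameTp_eq {V W : Type} {ρ : Sig} [LinearOrder V] {𝔹 : Str ρ V} {x y : W → V}
    (h : SameTp 𝔹 x y) (a b : W) : x a = x b ↔ y a = y b := by
  have h1 := h.1 a b
  have h2 := h.1 b a
  constructor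
  · intro h3
    rcases lt_trichotomy (y a) (y b) with h4 | h4 | h4
    · exact absurd h3 (h1.2 h4).ne
    · exact h4
    · exact absurd h3 (h2.2 h4).ne'
  · intro h3
    rcases lt_trichotomy (x a) (x b) with h4 | h4 | h4
    · exact absurd h3 (h1.1 h4).ne
    · exact h4
    · exact absurd h3 (h2.1 h4).ne'

theorem sameTp_c {V W S X : Type} {ρ : Sig} [LinearOrder V] {P : Pal S X} {𝔹 : Str ρ V}
    {c : V → V → S ⊕ X} (hL : Lnk P 𝔹 c) {x y : W → V} (h : SameTp 𝔹 x y) (a b : W) :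
    c (x a) (x b) = c (y a) (y b) := by
  refine (hL.eq _ _ _ _).2 ⟨sameTp_eq h a b, fun l f => ?_⟩
  have h1 := congrFun (congrFun h.2 l) (fun i => if f i then b else a)
  simp only [pull] at h1
  have h2 : (fun i => x (if f i then b else a)) = fun i => if f i then x b else x a := by
    funext i
    split_ifs <;> rfl
  have h3 : (fun i => y (if f i then b else a)) = fun i => if f i then y b else y a := by
    funext i
    split_ifs <;> rfl
  rw [h2, h3] at h1
  exact iff_of_eq h1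

/-- pairs of tuples as families of tuples -/
theorem sameTp_two {V I : Type} {ρ : Sig} [LinearOrder V] {𝔹 : Str ρ V} {v w v' w' : I → V}
    (h : SameTp 𝔹 (Sum.elim v w) (Sum.elim v' w')) :
    SameTp 𝔹 (fun q : Fin 2 × I => (![v, w] : Fin 2 → I → V) q.1 q.2)
      (fun q => (![v', w'] : Fin 2 → I → V) q.1 q.2) := by
  have h1 := sameTp_comp h (fun q : Fin 2 × I => (![Sum.inl q.2, Sum.inr q.2] : Fin 2 → I ⊕ I) q.1)
  have h2 : ∀ a b : I → V, (fun q : Fin 2 × I =>
      Sum.elim a b ((![Sum.inl q.2, Sum.inr q.2] : Fin 2 → I ⊕ I) q.1)) =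
      fun q => (![a, b] : Fin 2 → I → V) q.1 q.2 := by
    intro a b
    funext q
    obtain ⟨q1, q2⟩ := q
    fin_cases q1 <;> rfl
  rw [h2, h2] at h1
  exact h1

/-- **Row KERR.** -/
theorem pf_KERR (hCANR : T_CANR) (hBHHR : T_BHHR) : T_KERR := by
  intro σ ρ V S X _ P 𝔸 𝔹 M c hS I _ τ hτ
  have hc := hS.lnk.col
  obtain ⟨H, h, hH1, hH2, hH3⟩ := hCANR σ ρ V S X P 𝔸 𝔹 M c hS I
    (fun v w y => v = w → y = Sum.inl (τ (fun i => vt P c (v i)))) (by
      intro v w v' w' y hsame hR hvw'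
      have hvw : v = w := by
        funext i
        have h2 : v' i = w' i := congrFun hvw' i
        exact (sameTp_eq hsame (Sum.inl i) (Sum.inr i)).2 h2
      have hty : ∀ i, vt P c (v i) = vt P c (v' i) := by
        intro i
        have h1 : c (v i) (v i) = c (v' i) (v' i) :=
          sameTp_c hS.lnk hsame (Sum.inl i) (Sum.inl i)
        rw [vt, vt, h1]
      rw [hR hvw]
      simp only [hty])
    (by
      intro W _ G hG
      obtain ⟨ψ, hψ1, hψ2⟩ := hτ W G
      refine ⟨ψ, hψ1, fun u w huw => ?_⟩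
      have h1 : u = w := hG u w (fun i => congrFun huw i)
      subst h1
      rw [Pool.Agent.H44.SO.Col.vt hc, hψ2])
  have hcan : Can2 𝔸 𝔹 c I h := by
    refine ⟨fun v w v' w' hs => (hH1 2 ![v, w] ![v', w'] (sameTp_two hs)).2 0 1, fun W _ G => ?_⟩
    obtain ⟨ψ, hψ1, _, hψ2⟩ := hH3 W G
    exact ⟨ψ, hψ1, hψ2⟩
  have hrk : Injective (fun i : I => ((Finite.equivFin I i : Fin _) : ℕ)) := by
    intro a b hab
    exact (Finite.equivFin I).injective (Fin.ext hab)
  obtain ⟨τ', κ, hb, ht, _⟩ := hBHHR σ ρ V S X P 𝔸 𝔹 M c hS I _ hrk h hcan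
  have hττ : τ' = τ := by
    funext t
    obtain ⟨z, _, hz1, hz2⟩ := ht t
    have h1 := hH2 z z rfl
    have h2 : (fun i => vt P c (z i)) = t := funext hz1
    rw [h2, hz2] at h1
    exact Sum.inl.inj h1
  rw [hττ] at hb
  exact ⟨κ, hb⟩

end Pool.Agent.H3.AR
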