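import Pool.Agent.H44.AR.BasicA

/-!
# Row PRB of the board ara_modules (MP_6ab439_lc): the actions of unary maps on the types are
permutations
-/

set_option autoImplicit false
set_option linter.unusedVariables false

namespace Pool.Agent.H3.AR

open Pool.Agent.H68.BP Pool.Agent.H58.SF Pool.Agent.H53.GC Pool.Agent.H53.NR Pool.Agent.H53.GR
open Pool.Agent.H57.AR Pool.Agent.H44.AR
open Pool.Agent.H57.SO (Pal Col vt Sb FBl)
open Pool.Agent.H57.EQ (Cx)
open Function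
open Classical

/-- equal colours of elements are equal types -/
theorem lnk_ty {V S X : Type} {ρ : Sig} {P : Pal S X} {𝔹 : Str ρ V} {c : V → V → S ⊕ X}
    (hL : Lnk P 𝔹 c) (har : ∀ l, 1 ≤ ρ.ar l) (x y : V) : c x x = c y y ↔ ty 𝔹 x = ty 𝔹 y := by
  rw [hL.eq x x y y]
  constructor
  · rintro ⟨-, h⟩
    funext l
    have h1 := h l (fun _ => true)
    exact propext h1
  · intro h
    refine ⟨⟨fun _ => rfl, fun _ => rfl⟩, fun l f => ?_⟩
    simp only [ite_self]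
    exact iff_of_eq (congrFun h l)

theorem pf_PRB (hNR3 : Pool.Agent.H53.GR.T_NR3) (hCAN : T_CANR) : T_PRB := by
  intro σ ρ V S X _ 𝔸 𝔹 M hU D P c hL hBl hN γ hγ
  have har : ∀ l, 1 ≤ ρ.ar l := fun l => (hU.ar l).1
  obtain ⟨h, hinv, hR⟩ := hCAN ρ ρ V Unit 𝔹 hU.ne har (hNR3 ρ V 𝔹 M har hU.univ)
    (fun k v t => ∃ ψ : Fin k → V, Cx 𝔸 (fun (_ : Unit) a => v a ()) ψ ∧ tpo 𝔹 ψ = t ∧
      ∀ a s, c (v a ()) (v a ()) = Sum.inl s → c (ψ a) (ψ a) = Sum.inl (γ s))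
    (by
      intro k v v' t hvv hRv
      obtain ⟨ψ, h1, h2, h3⟩ := hRv
      have e1 : tpo 𝔹 (fun a => v a ()) = tpo 𝔹 (fun a => v' a ()) :=
        tpo_comp (sameTp_iff.1 hvv) (fun a : Fin k => (a, ()))
      refine ⟨ψ, fun l z hz => ?_, h2, fun a s hs => ?_⟩
      · refine h1 l z fun i => ?_
        have e2 := tpo_comp e1.symm z
        exact hBl l _ _ (hz i) (SameD.of_tpo e2 D)
      · refine h3 a s ?_
        rw [← hs]
        exact (lnk_ty hL har _ _).2 (ty_of_tpo e1 a))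
    (by
      intro W _ G hG
      obtain ⟨ψ, h1, h2⟩ := hγ W (G ())
      refine ⟨tpo 𝔹 ψ, fun k z => ⟨fun a => ψ (z a), fun l z' hz' => ?_, rfl, fun a s hs => ?_⟩⟩
      · exact h1 l (fun a => z (z' a)) hz'
      · exact h2 (z a) s hs)
  let m : (k : ℕ) → OT ρ (Fin k) → OT ρ (Fin k) := fun k t =>
    if hu : ∃ u : Fin k → V, tpo 𝔹 u = t then pullO h (fun a (_ : Unit) => hu.choose a) else t
  have hm : ∀ (k : ℕ) (u : Fin k → V), m k (tpo 𝔹 u) = pullO h (fun a (_ : Unit) => u a) := by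
    intro k u
    have hu : ∃ u' : Fin k → V, tpo 𝔹 u' = tpo 𝔹 u := ⟨u, rfl⟩
    have h1 : m k (tpo 𝔹 u) = pullO h (fun a (_ : Unit) => hu.choose a) := dif_pos hu
    rw [h1]
    refine hinv k _ _ (sameTp_iff.2 ?_)
    exact tpo_comp hu.choose_spec (fun q : Fin k × Unit => q.1)
  have hum : UM 𝔹 𝔹 𝔸 𝔸 m := by
    intro W _ G
    obtain ⟨ψ, h1, h2, -⟩ := hR (Nat.card W) (fun a (_ : Unit) => G ((Finite.equivFin W).symm a))
    refine ⟨fun w => ψ (Finite.equivFin W w), fun l z hz => ?_, fun k z => ?_⟩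
    · refine h1 l (fun a => Finite.equivFin W (z a)) fun _ => ?_
      simp only [Equiv.symm_apply_apply]
      exact hz
    · rw [hm]
      have h3 : tpo 𝔹 (fun a => ψ (Finite.equivFin W (z a))) =
          pullO (tpo 𝔹 ψ) (fun a => Finite.equivFin W (z a)) := rfl
      rw [h3, h2, pullO_pullO]
      simp only [Equiv.symm_apply_apply]
  have htm : ∀ x s, c x x = Sum.inl s → ∃ y, c y y = Sum.inl (γ s) ∧ tm m (ty 𝔹 x) = ty 𝔹 y := by
    intro x s hs
    obtain ⟨ψ, h1, h2, h3⟩ := hR 1 (fun _ (_ : Unit) => x)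
    refine ⟨ψ 0, h3 0 s hs, ?_⟩
    have h4 := hum.typ (fun _ : Fin 1 => x) 0
    rw [← h4, hm, ← h2, tyO_tpo]
  have hinj : Injective γ := by
    intro s s' hss
    obtain ⟨x, hx⟩ := hL.col.surS s
    obtain ⟨x', hx'⟩ := hL.col.surS s'
    obtain ⟨y, hy, h1⟩ := htm x s hx
    obtain ⟨y', hy', h2⟩ := htm x' s' hx'
    have h3 : ty 𝔹 y = ty 𝔹 y' := by
      rw [← lnk_ty hL har, hy, hy', hss]
    have h4 : ty 𝔹 x = ty 𝔹 x' := hN m hum x x' (by rw [h1, h2, h3])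
    have h5 := (lnk_ty hL har x x').2 h4
    rw [hx, hx'] at h5
    exact Sum.inl.inj h5
  have := hL.finS
  exact Finite.injective_iff_bijective.1 hinj

end Pool.Agent.H3.AR
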