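import Pool.Agent.H44.AR.BasicA

/-!
# Row SHP of the board ara_modules (MP_6ab439_lc): the structure with arbitrary elements of the
types in `D`
-/

set_option autoImplicit false
set_option linter.unusedVariables false

namespace Pool.Agent.H3.AR

open Pool.Agent.H68.BP Pool.Agent.H58.SF Pool.Agent.H53.GC Pool.Agent.H53.NR Pool.Agent.H53.GR
open Pool.Agent.H57.AR Pool.Agent.H44.AR
open Pool.Agent.H57.SO (Pal Col vt Sb FBl)
open Pool.Agent.H57.EQ (Cx)
open Function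
open Classical

theorem pf_SHP (hCOL : Pool.Agent.H44.AR.T_COL) (hORD : T_ORD) : T_SHP := by
  intro σ ρ V _ 𝔸 𝔹 M hU m D hBl hUM hF
  refine ⟨?_, ?_, ?_⟩
  · intro l y y' hy hs
    obtain ⟨x, hx, hxy⟩ := hy
    exact ⟨x, hx, hxy.trans hs⟩
  · intro W _ G
    exact ⟨G, fun l z hz => ⟨_, hz, SameD.of_tp rfl D⟩, fun k z => rfl⟩
  · intro W _ G
    obtain ⟨ψ, h1, h2⟩ := hUM W G
    refine ⟨ψ, fun l z hz => ?_, h2⟩
    obtain ⟨x, hx, hxy⟩ := hz
    let rk : Fin (σ.ar l) → Bool ×ₗ V := fun a =>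
      toLex (decide (ty 𝔹 (x a) ∈ D), if ty 𝔹 (x a) ∈ D then x a else G (z a))
    have hrk : ∀ a b, rk a = rk b ↔ x a = x b := by
      intro a b
      show toLex (decide (ty 𝔹 (x a) ∈ D), if ty 𝔹 (x a) ∈ D then x a else G (z a)) =
        toLex (decide (ty 𝔹 (x b) ∈ D), if ty 𝔹 (x b) ∈ D then x b else G (z b)) ↔ x a = x b
      rw [toLex_inj, Prod.mk.injEq]
      by_cases ha : ty 𝔹 (x a) ∈ D
      · by_cases hb : ty 𝔹 (x b) ∈ D
        · rw [if_pos ha, if_pos hb]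
          exact ⟨fun h => h.2, fun h => ⟨by rw [h], h⟩⟩
        · refine ⟨fun h => ?_, fun h => ?_⟩
          · exact absurd ((decide_eq_decide.1 h.1).1 ha) hb
          · exact absurd (h ▸ ha) hb
      · by_cases hb : ty 𝔹 (x b) ∈ D
        · refine ⟨fun h => ?_, fun h => ?_⟩
          · exact absurd ((decide_eq_decide.1 h.1).2 hb) ha
          · exact absurd (h ▸ hb) ha
        · rw [if_neg ha, if_neg hb]
          refine ⟨fun h => (hxy.eq a b ha hb).1 h.2, fun h => ⟨by rw [h], ?_⟩⟩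
          exact (hxy.eq a b ha hb).2 h
    obtain ⟨x', hx', hlt⟩ := hORD ρ V 𝔹 M hU (Fin (σ.ar l)) (Bool ×ₗ V) x rk hrk
    have hs := SameD.of_tp hx' (∅ : Set (T1 ρ))
    have hA : 𝔸 l x' := hBl l x x' hx hs
    have hO : SameO 𝔹 D x' (fun a => G (z a)) := by
      refine ⟨fun a => ?_, fun a b ha hb => ?_, fun r w hw => ?_⟩
      · rw [hs.typ a]
        exact hxy.typ a
      · rw [hs.typ a] at ha
        rw [hs.typ b] at hb
        rw [hlt a b]
        show _ ↔ toLex (decide (ty 𝔹 (x a) ∈ D), if ty 𝔹 (x a) ∈ D then x a else G (z a)) <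
          toLex (decide (ty 𝔹 (x b) ∈ D), if ty 𝔹 (x b) ∈ D then x b else G (z b))
        rw [Prod.Lex.toLex_lt_toLex]
        simp only [ha, hb, decide_false, lt_self_iff_false, if_false, true_and, false_or]
      · have h3 : ∀ i, ty 𝔹 (x (w i)) ∉ D := fun i => by
          have h4 := hw i
          rwa [hs.typ (w i)] at h4
        exact (hxy.rel r w h3).trans (hs.rel r w (fun i hi => hi)).symm
    obtain ⟨v, hv1, hv2, -⟩ := hUM.rlz x'
    have hA' : 𝔸 l v := hv1 l (fun a => a) hA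
    have h5 := hCOL σ ρ ρ V V 𝔸 𝔹 𝔸 𝔹 M hU m D hUM hF.clp (σ.ar l) x' (fun a => G (z a)) hO
    refine hBl l v _ hA' (SameD.of_tpo ?_ ∅)
    rw [hv2, h5, h2]

end Pool.Agent.H3.AR
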